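import Pool.Agent.Helper292.ForceCH

/-!
# Martin's axiom and strongly surjective sets of reals: definitions
-/

set_option autoImplicit false

namespace H31Z.SS

open Pool.Agent.Helper292.ForceCH

/-- The countable chain condition: each set of pairwise incompatible elements is countable. -/
def CCC (X : Type) [Preorder X] : Prop :=
  ∀ A : Set X, (∀ a ∈ A, ∀ b ∈ A, a ≠ b → ¬ ∃ c, c ≤ a ∧ c ≤ b) → A.Countable

/-- `G` is a filter (nonempty, upward closed, downward directed) which meets every `D k`. -/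
def Generic {X : Type} [Preorder X] (D : Om → Set X) (G : Set X) : Prop :=
  (∃ x, x ∈ G) ∧ (∀ x y, x ∈ G ∧ x ≤ y → y ∈ G) ∧
    (∀ x y, x ∈ G ∧ y ∈ G → ∃ z, z ∈ G ∧ z ≤ x ∧ z ≤ y) ∧ ∀ k, ∃ x, x ∈ G ∧ x ∈ D k

/-- Martin's axiom `MA_{ℵ₁}`: in a nonempty partial order with the countable chain condition,
each family of `ℵ₁` dense sets is met by a filter. -/
def MA : Prop :=
  ∀ (X : Type) [PartialOrder X], Nonempty X → CCC X → ∀ D : Om → Set X,
    (∀ k x, ∃ y, y ∈ D k ∧ y ≤ x) → ∃ G : Set X, Generic D G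

/-- `MA_{ℵ₁}` for `σ`-linked preorders: `c` colours `X` by natural numbers so that elements of the
same colour are compatible. -/
def MALinked : Prop :=
  ∀ (X : Type) [Preorder X] (c : X → ℕ) (D : Om → Set X),
    Nonempty X ∧ (∀ x y, c x = c y → ∃ z, z ≤ x ∧ z ≤ y) ∧ (∀ k x, ∃ y, y ∈ D k ∧ y ≤ x) →
      ∃ G : Set X, Generic D G

/-- The set of reals `L` is strongly surjective: it maps monotonically onto each of its nonempty
suborders. -/
def StronglySurjective (L : Set ℝ) : Prop :=
  ∀ K : Set ℝ, K ⊆ L → K.Nonempty → ∃ f : L → K, Function.Surjective f ∧ Monotone f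

/-- The set of reals `M` is a minimal uncountable linear order: it is uncountable and it embeds
in each of its uncountable suborders. -/
def Minimal (M : Set ℝ) : Prop :=
  ¬ M.Countable ∧ ∀ K : Set ℝ, K ⊆ M → ¬ K.Countable → ∃ f : M → K, StrictMono f

end H31Z.SS
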