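import Pool.Agent.H31Z.SS.Defs

/-!
# Under Martin's axiom small sets of reals closed under rational translations are strongly
surjective
-/

set_option autoImplicit false

namespace H31Z.SS

open Pool.Agent.Helper292.ForceCH Classical

theorem exists_rat {Lo Hi : Set ℝ} (h1 : Lo.Finite) (h2 : Hi.Finite)
    (h : ∀ l ∈ Lo, ∀ u ∈ Hi, l < u) (x : ℝ) :
    ∃ r : ℚ, (∀ l ∈ Lo, l < x + r) ∧ ∀ u ∈ Hi, x + r < u := by
  obtain ⟨m, hm1, hm2⟩ := h1.exists_between' h2 h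
  obtain ⟨m', hm3, hm4⟩ := h1.exists_between' (Set.finite_singleton m)
    (fun l hl u hu => by rw [hu]; exact hm1 l hl)
  have := hm4 m rfl
  obtain ⟨r, hr1, hr2⟩ := exists_rat_btwn (show m' - x < m - x by linarith)
  exact ⟨r, fun l hl => by have := hm3 l hl; linarith, fun u hu => by have := hm2 u hu; linarith⟩

/-- conditions -/
@[ext] structure Cd (K K0 : Set ℝ) where
  s : Finset (ℝ × ℚ)
  b : Finset (ℝ × ℚ)
  mem : ∀ t ∈ s, t.1 ∈ K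
  mono : ∀ t ∈ s, ∀ t' ∈ s, t.1 < t'.1 → t.1 + t.2 < t'.1 + t'.2
  fn : ∀ t ∈ s, ∀ t' ∈ s, t.1 = t'.1 → t = t'
  b0 : ∀ z ∈ b, z.1 ∈ K0 ∧ ∃ t ∈ s, t.1 = z.1
  blk : ∀ z ∈ b, ∀ t ∈ s, z.1 < t.1 → (z.2 : ℝ) < t.1 + t.2

variable {K K0 : Set ℝ}

instance : PartialOrder (Cd K K0) where
  le q p := p.s ⊆ q.s ∧ p.b ⊆ q.b
  le_refl _ := ⟨Finset.Subset.refl _, Finset.Subset.refl _⟩
  le_trans _ _ _ h h' := ⟨h'.1.trans h.1, h'.2.trans h.2⟩
  le_antisymm _ _ h h' := Cd.ext (h'.1.antisymm h.1) (h'.2.antisymm h.2)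

instance : Nonempty (Cd K K0) := ⟨⟨∅, ∅, by simp, by simp, by simp, by simp, by simp⟩⟩

theorem Cd.ins (p : Cd K K0) {k : ℝ} (hk : k ∈ K) (r : ℚ) (h0 : ∀ t ∈ p.s, t.1 ≠ k)
    (h1 : ∀ t ∈ p.s, t.1 < k → t.1 + t.2 < k + r) (h2 : ∀ t ∈ p.s, k < t.1 → k + r < t.1 + t.2)
    (h3 : ∀ z ∈ p.b, z.1 < k → (z.2 : ℝ) < k + r) :
    ∃ q ≤ p, q.s = insert (k, r) p.s ∧ q.b = p.b := by
  refine ⟨⟨insert (k, r) p.s, p.b, ?_, ?_, ?_, ?_, ?_⟩,
    ⟨Finset.subset_insert _ _, Finset.Subset.refl _⟩, rfl, rfl⟩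
  · intro t ht
    rcases Finset.mem_insert.1 ht with rfl | ht
    · exact hk
    · exact p.mem t ht
  · intro t ht t' ht' h
    rcases Finset.mem_insert.1 ht with rfl | ht <;> rcases Finset.mem_insert.1 ht' with rfl | ht'
    · exact absurd h (lt_irrefl _)
    · exact h2 t' ht' h
    · exact h1 t ht h
    · exact p.mono t ht t' ht' h
  · intro t ht t' ht' h
    rcases Finset.mem_insert.1 ht with rfl | ht <;> rcases Finset.mem_insert.1 ht' with rfl | ht'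
    · rfl
    · exact absurd h.symm (h0 t' ht')
    · exact absurd h (h0 t ht)
    · exact p.fn t ht t' ht' h
  · intro z hz
    obtain ⟨a, t, ht, e⟩ := p.b0 z hz
    exact ⟨a, t, Finset.mem_insert_of_mem ht, e⟩
  · intro z hz t ht h
    rcases Finset.mem_insert.1 ht with rfl | ht
    · exact h3 z hz h
    · exact p.blk z hz t ht h

theorem Cd.dom (p : Cd K K0) {k : ℝ} (hk : k ∈ K) : ∃ q ≤ p, ∃ r, (k, r) ∈ q.s := by
  by_cases h0 : ∃ t ∈ p.s, t.1 = k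
  · obtain ⟨t, ht, rfl⟩ := h0
    exact ⟨p, le_rfl, t.2, ht⟩
  push Not at h0
  obtain ⟨r, h1, h2⟩ := exists_rat
    (Lo := (fun t : ℝ × ℚ => t.1 + t.2) '' {t | t ∈ p.s ∧ t.1 < k} ∪
      (fun z : ℝ × ℚ => (z.2 : ℝ)) '' {z | z ∈ p.b ∧ z.1 < k})
    (Hi := (fun t : ℝ × ℚ => t.1 + t.2) '' {t | t ∈ p.s ∧ k < t.1})
    (((p.s.finite_toSet.subset fun _ h => h.1).image _).union
      ((p.b.finite_toSet.subset fun _ h => h.1).image _))
    ((p.s.finite_toSet.subset fun _ h => h.1).image _) (by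
      rintro _ (⟨t, ht, rfl⟩ | ⟨z, hz, rfl⟩) _ ⟨t', ht', rfl⟩
      · exact p.mono t ht.1 t' ht'.1 (ht.2.trans ht'.2)
      · exact p.blk z hz.1 t' ht'.1 (hz.2.trans ht'.2)) k
  obtain ⟨q, hq, e, -⟩ := p.ins hk r h0 (fun t ht h => h1 _ (Or.inl ⟨t, ⟨ht, h⟩, rfl⟩))
    (fun t ht h => h2 _ ⟨t, ⟨ht, h⟩, rfl⟩) (fun z hz h => h1 _ (Or.inr ⟨z, ⟨hz, h⟩, rfl⟩))
  exact ⟨q, hq, r, by rw [e]; exact Finset.mem_insert_self _ _⟩

/-- the value at `y` of the monotone surjection is decided -/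
def Done (y : ℝ) (p : Cd K K0) : Prop :=
  (∃ t ∈ p.s, t.1 + t.2 = y) ∨ (∃ t ∈ p.s, t.1 + t.2 ≤ y ∧ ∃ ρ : ℚ, (t.1, ρ) ∈ p.b ∧ y < ρ) ∨
    ∃ t ∈ p.s, y < t.1 + t.2 ∧ ∀ k ∈ K, t.1 ≤ k

theorem Done.mono {y : ℝ} {p q : Cd K K0} (h : Done y p) (hq : q ≤ p) : Done y q := by
  rcases h with ⟨t, ht, h⟩ | ⟨t, ht, h, ρ, h1, h2⟩ | ⟨t, ht, h⟩
  · exact Or.inl ⟨t, hq.1 ht, h⟩
  · exact Or.inr (Or.inl ⟨t, hq.1 ht, h, ρ, hq.2 h1, h2⟩)
  · exact Or.inr (Or.inr ⟨t, hq.1 ht, h⟩)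

theorem Cd.block (p : Cd K K0) {y : ℝ} {a : ℝ × ℚ} (ha : a ∈ p.s) (h0 : a.1 ∈ K0)
    (h1 : a.1 + a.2 ≤ y) (h2 : ∀ t ∈ p.s, a.1 < t.1 → y < t.1 + t.2) : ∃ q ≤ p, Done y q := by
  obtain ⟨ρ, h3, h4⟩ := exists_rat (Lo := {y})
    (Hi := (fun t : ℝ × ℚ => t.1 + t.2) '' {t | t ∈ p.s ∧ a.1 < t.1}) (Set.finite_singleton y)
    ((p.s.finite_toSet.subset fun _ h => h.1).image _) (by
      rintro _ rfl _ ⟨t, ht, rfl⟩
      exact h2 t ht.1 ht.2) 0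
  refine ⟨⟨p.s, insert (a.1, ρ) p.b, p.mem, p.mono, p.fn, ?_, ?_⟩,
    ⟨Finset.Subset.refl _, Finset.subset_insert _ _⟩,
    Or.inr (Or.inl ⟨a, ha, h1, ρ, Finset.mem_insert_self _ _, by simpa using h3 y rfl⟩)⟩
  · intro z hz
    rcases Finset.mem_insert.1 hz with rfl | hz
    · exact ⟨h0, a, ha, rfl⟩
    · exact p.b0 z hz
  · intro z hz t ht h
    rcases Finset.mem_insert.1 hz with rfl | hz
    · simpa using h4 _ ⟨t, ⟨ht, h⟩, rfl⟩
    · exact p.blk z hz t ht h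

theorem Cd.done (hne : K.Nonempty) (h00 : K0 ⊆ K) (hd : K ⊆ closure K0)
    (hg : ∀ x ∈ K, (∃ b, x < b ∧ ∀ k ∈ K, x < k → b ≤ k) → x ∈ K0) (p : Cd K K0) (y : ℝ) :
    ∃ q ≤ p, Done y q := by
  by_cases hy : ∃ t ∈ p.s, t.1 + t.2 = y
  · exact ⟨p, le_rfl, Or.inl hy⟩
  push Not at hy
  have hAB : ∀ t ∈ p.s, ∀ t' ∈ p.s, t.1 + t.2 ≤ y → y < t'.1 + t'.2 → t.1 < t'.1 := by
    intro t ht t' ht' h1 h2
    rcases lt_trichotomy t.1 t'.1 with h | h | h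
    · exact h
    · rw [p.fn t ht t' ht' h] at h1; linarith
    · have := p.mono t' ht' t ht h; linarith
  by_cases hk : ∃ k ∈ K, ∀ t ∈ p.s, (t.1 + t.2 ≤ y → t.1 < k) ∧ (y < t.1 + t.2 → k < t.1)
  · obtain ⟨k0, hk0, H0⟩ := hk
    have hO : IsOpen (⋂ t ∈ p.s, {k : ℝ | (t.1 + t.2 ≤ y → t.1 < k) ∧ (y < t.1 + t.2 → k < t.1)}) := by
      refine isOpen_biInter_finset fun t _ => ?_
      by_cases h : t.1 + t.2 ≤ y
      · have : IsOpen {k : ℝ | t.1 < k} := isOpen_Ioi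
        simpa [h, not_lt.2 h] using this
      · have : IsOpen {k : ℝ | k < t.1} := isOpen_Iio
        simpa [h, not_le.1 h] using this
    obtain ⟨k, hk1, hk2⟩ := mem_closure_iff.1 (hd hk0) _ hO (Set.mem_iInter₂.2 H0)
    have H := Set.mem_iInter₂.1 hk1
    by_cases hb : ∃ z ∈ p.b, z.1 < k ∧ y ≤ z.2
    · obtain ⟨z, hz, h1, h2⟩ := hb
      obtain ⟨h3, t, ht, e⟩ := p.b0 z hz
      refine p.block ht (e ▸ h3) ?_ fun t' ht' h => h2.trans_lt (p.blk z hz t' ht' (e ▸ h))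
      by_contra h4
      have := (H t ht).2 (not_le.1 h4)
      rw [e] at this
      exact lt_asymm h1 this
    push Not at hb
    obtain ⟨r, h1, h2⟩ := exists_rat
      (Lo := (fun t : ℝ × ℚ => t.1 + t.2) '' {t | t ∈ p.s ∧ t.1 + t.2 ≤ y} ∪
        (fun z : ℝ × ℚ => (z.2 : ℝ)) '' {z | z ∈ p.b ∧ z.1 < k}) (Hi := {y})
      (((p.s.finite_toSet.subset fun _ h => h.1).image _).union
        ((p.b.finite_toSet.subset fun _ h => h.1).image _)) (Set.finite_singleton y) (by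
        rintro _ (⟨t, ht, rfl⟩ | ⟨z, hz, rfl⟩) _ rfl
        · exact lt_of_le_of_ne ht.2 (hy t ht.1)
        · exact hb z hz.1 hz.2) k
    have h3 := h2 y rfl
    have hup : ∀ t ∈ p.s, k < t.1 → y < t.1 + t.2 := fun t ht h => by
      by_contra h4
      exact lt_asymm h ((H t ht).1 (not_lt.1 h4))
    obtain ⟨q, hq, e, -⟩ := p.ins (h00 hk2) r
      (fun t ht h => by
        rcases le_or_gt (t.1 + t.2) y with h4 | h4
        · exact absurd ((H t ht).1 h4) (by rw [h]; exact lt_irrefl _)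
        · exact absurd ((H t ht).2 h4) (by rw [h]; exact lt_irrefl _))
      (fun t ht h => h1 _ (Or.inl ⟨t, ⟨ht, by
        by_contra h4
        exact lt_asymm h ((H t ht).2 (not_le.1 h4))⟩, rfl⟩))
      (fun t ht h => h3.trans (hup t ht h)) (fun z hz h => h1 _ (Or.inr ⟨z, ⟨hz, h⟩, rfl⟩))
    obtain ⟨q', hq', h5⟩ := q.block (y := y) (a := (k, r)) (by rw [e]; exact Finset.mem_insert_self _ _)
      hk2 h3.le (by
        intro t ht h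
        rw [e] at ht
        rcases Finset.mem_insert.1 ht with rfl | ht
        · exact absurd h (lt_irrefl _)
        · exact hup t ht h)
    exact ⟨q', hq'.trans hq, h5⟩
  · have hk' : ∀ k ∈ K, (∀ t ∈ p.s, t.1 + t.2 ≤ y → t.1 < k) →
        ∃ t ∈ p.s, y < t.1 + t.2 ∧ t.1 ≤ k := by
      intro k hkK h
      by_contra hc
      push Not at hc
      exact hk ⟨k, hkK, fun t ht => ⟨h t ht, hc t ht⟩⟩
    rcases (p.s.filter fun t => t.1 + t.2 ≤ y).eq_empty_or_nonempty with hA | hA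
    · have hA' : ∀ t ∈ p.s, ¬ t.1 + t.2 ≤ y := fun t ht h => by
        have : t ∈ p.s.filter fun t => t.1 + t.2 ≤ y := Finset.mem_filter.2 ⟨ht, h⟩
        rw [hA] at this
        exact Finset.notMem_empty _ this
      obtain ⟨k0, hk0⟩ := hne
      obtain ⟨t0, ht0, -⟩ := hk' k0 hk0 fun t ht h => absurd h (hA' t ht)
      obtain ⟨b, hb, hmin⟩ := p.s.exists_min_image (fun t => t.1) ⟨t0, ht0⟩
      refine ⟨p, le_rfl, Or.inr (Or.inr ⟨b, hb, not_le.1 (hA' b hb), fun k hkK => ?_⟩)⟩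
      obtain ⟨t, ht, -, h⟩ := hk' k hkK fun t ht h => absurd h (hA' t ht)
      exact (hmin t ht).trans h
    · obtain ⟨a, ha, hmax⟩ := Finset.exists_max_image _ (fun t : ℝ × ℚ => t.1) hA
      obtain ⟨ha1, ha2⟩ := Finset.mem_filter.1 ha
      refine p.block ha1 (hg _ (p.mem a ha1) ?_) ha2 fun t ht h => ?_
      · obtain ⟨b, hb1, hb2⟩ := (Set.finite_singleton a.1).exists_between'
          (t := (fun t : ℝ × ℚ => t.1) '' {t | t ∈ p.s ∧ y < t.1 + t.2})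
          ((p.s.finite_toSet.subset fun _ h => h.1).image _) (by
            rintro _ rfl _ ⟨t, ht, rfl⟩
            exact hAB a ha1 t ht.1 ha2 ht.2)
        refine ⟨b, hb1 _ rfl, fun k hkK h => ?_⟩
        obtain ⟨t, ht, h1, h2⟩ := hk' k hkK fun t ht h' =>
          (hmax t (Finset.mem_filter.2 ⟨ht, h'⟩)).trans_lt h
        exact (hb2 _ ⟨t, ⟨ht, h1⟩, rfl⟩).le.trans h2
      · by_contra h'
        exact absurd (hmax t (Finset.mem_filter.2 ⟨ht, not_lt.1 h'⟩)) (not_le.2 h)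

theorem exists_eps {G : Set ℝ} (hG : G.Finite) (h : ∀ g ∈ G, 0 < g) :
    ∃ ε : ℝ, 0 < ε ∧ ∀ g ∈ G, 2 * ε < g := by
  obtain ⟨m, h1, h2⟩ := (Set.finite_singleton (0 : ℝ)).exists_between' hG (by
    rintro _ rfl g hg
    exact h g hg)
  have := h1 0 rfl
  exact ⟨m / 2, by linarith, fun g hg => by have := h2 g hg; linarith⟩

/-- the condition `p` fits the separated pattern `π` -/
def Fit (p : Cd K K0) (π : Finset (ℝ × ℝ × ℚ) × Finset (ℝ × ℚ)) : Prop :=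
  p.b = π.2 ∧ (∀ t ∈ p.s, ∃ B ∈ π.1, B.1 ≤ t.1 ∧ t.1 ≤ B.2.1 ∧ t.2 = B.2.2) ∧
    (∀ B ∈ π.1, ∀ B' ∈ π.1, B = B' ∨ (B.2.1 < B'.1 ∧ B.2.1 + B.2.2 < B'.1 + B'.2.2) ∨
      (B'.2.1 < B.1 ∧ B'.2.1 + B'.2.2 < B.1 + B.2.2)) ∧
    ∀ z ∈ π.2, ∀ B ∈ π.1, B.2.1 ≤ z.1 ∨ (z.2 : ℝ) < B.1 + B.2.2

theorem Fit.compat {p q : Cd K K0} {π : Finset (ℝ × ℝ × ℚ) × Finset (ℝ × ℚ)} (hp : Fit p π)
    (hq : Fit q π) : ∃ z, z ≤ p ∧ z ≤ q := by
  have H : ∀ t ∈ p.s ∪ q.s, ∃ B ∈ π.1, B.1 ≤ t.1 ∧ t.1 ≤ B.2.1 ∧ t.2 = B.2.2 := by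
    intro t ht
    rcases Finset.mem_union.1 ht with h | h
    · exact hp.2.1 t h
    · exact hq.2.1 t h
  refine ⟨⟨p.s ∪ q.s, p.b, ?_, ?_, ?_, ?_, ?_⟩, ⟨Finset.subset_union_left, Finset.Subset.refl _⟩,
    ⟨Finset.subset_union_right, by rw [hq.1, ← hp.1]⟩⟩
  · intro t ht
    rcases Finset.mem_union.1 ht with h | h
    · exact p.mem t h
    · exact q.mem t h
  · intro t ht t' ht' h
    obtain ⟨B, hB, a1, a2, a3⟩ := H t ht
    obtain ⟨B', hB', b1, b2, b3⟩ := H t' ht'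
    rw [a3, b3]
    rcases hp.2.2.1 B hB B' hB' with rfl | ⟨c1, c2⟩ | ⟨c1, c2⟩ <;> linarith
  · intro t ht t' ht' h
    obtain ⟨B, hB, a1, a2, a3⟩ := H t ht
    obtain ⟨B', hB', b1, b2, b3⟩ := H t' ht'
    rcases hp.2.2.1 B hB B' hB' with rfl | ⟨c1, c2⟩ | ⟨c1, c2⟩
    · exact Prod.ext h (a3.trans b3.symm)
    · linarith
    · linarith
  · intro z hz
    obtain ⟨a, t, ht, e⟩ := p.b0 z hz
    exact ⟨a, t, Finset.mem_union_left _ ht, e⟩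
  · intro z hz t ht h
    obtain ⟨B, hB, a1, a2, a3⟩ := H t ht
    rw [a3]
    rcases hp.2.2.2 z (hp.1 ▸ hz) B hB with c | c <;> linarith

theorem exists_fit (p : Cd K K0) : ∃ π : Finset (ℝ × ℝ × ℚ) × Finset (ℝ × ℚ), Fit p π ∧
    (∀ B ∈ π.1, B ∈ (K0 ∪ Set.range ((↑) : ℚ → ℝ)) ×ˢ (K0 ∪ Set.range ((↑) : ℚ → ℝ)) ×ˢ
      (Set.univ : Set ℚ)) ∧ ∀ z ∈ π.2, z ∈ K0 ×ˢ (Set.univ : Set ℚ) := by
  obtain ⟨ε, hε, hG⟩ := exists_eps
    (G := ((fun x : (ℝ × ℚ) × (ℝ × ℚ) => x.2.1 - x.1.1) ''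
        {x | (x.1 ∈ p.s ∧ x.2 ∈ p.s) ∧ x.1.1 < x.2.1} ∪
      (fun x : (ℝ × ℚ) × (ℝ × ℚ) => x.2.1 + x.2.2 - (x.1.1 + x.1.2)) ''
        {x | (x.1 ∈ p.s ∧ x.2 ∈ p.s) ∧ x.1.1 < x.2.1}) ∪
      (fun x : (ℝ × ℚ) × (ℝ × ℚ) => x.2.1 + x.2.2 - x.1.2) ''
        {x | (x.1 ∈ p.b ∧ x.2 ∈ p.s) ∧ x.1.1 < x.2.1})
    (((((p.s.finite_toSet.prod p.s.finite_toSet).subset fun _ h => h.1).image _).union
      (((p.s.finite_toSet.prod p.s.finite_toSet).subset fun _ h => h.1).image _)).union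
      (((p.b.finite_toSet.prod p.s.finite_toSet).subset fun _ h => h.1).image _)) (by
      rintro _ ((⟨x, hx, rfl⟩ | ⟨x, hx, rfl⟩) | ⟨x, hx, rfl⟩)
      · exact sub_pos.2 hx.2
      · exact sub_pos.2 (p.mono _ hx.1.1 _ hx.1.2 hx.2)
      · exact sub_pos.2 (p.blk _ hx.1.1 _ hx.1.2 hx.2))
  have hx : ∀ x : ℝ, ∃ lo hi : ℝ, lo ∈ K0 ∪ Set.range ((↑) : ℚ → ℝ) ∧
      hi ∈ K0 ∪ Set.range ((↑) : ℚ → ℝ) ∧ x - ε < lo ∧ lo ≤ x ∧ x ≤ hi ∧ hi < x + ε ∧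
      (x ∈ K0 → hi = x) := by
    intro x
    by_cases h : x ∈ K0
    · exact ⟨x, x, Or.inl h, Or.inl h, by linarith, le_rfl, le_rfl, by linarith, fun _ => rfl⟩
    · obtain ⟨a, a1, a2⟩ := exists_rat_btwn (show x - ε < x by linarith)
      obtain ⟨b, b1, b2⟩ := exists_rat_btwn (show x < x + ε by linarith)
      exact ⟨a, b, Or.inr ⟨a, rfl⟩, Or.inr ⟨b, rfl⟩, a1, a2.le, b1.le, b2, fun h' => absurd h' h⟩
  choose lo hi l1 l2 l3 l4 l5 l6 l7 using hx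
  have sep : ∀ t ∈ p.s, ∀ t' ∈ p.s, t.1 < t'.1 →
      hi t.1 < lo t'.1 ∧ hi t.1 + t.2 < lo t'.1 + t'.2 := by
    intro t ht t' ht' h
    have g1 := hG _ (Or.inl (Or.inl ⟨(t, t'), ⟨⟨ht, ht'⟩, h⟩, rfl⟩))
    have g2 := hG _ (Or.inl (Or.inr ⟨(t, t'), ⟨⟨ht, ht'⟩, h⟩, rfl⟩))
    have := l6 t.1
    have := l3 t'.1
    simp only at g1 g2
    constructor <;> linarith
  refine ⟨(p.s.image fun t => (lo t.1, hi t.1, t.2), p.b), ⟨rfl, fun t ht => ?_, ?_, ?_⟩, ?_,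
    fun z hz => ⟨(p.b0 z hz).1, trivial⟩⟩
  · exact ⟨_, Finset.mem_image_of_mem _ ht, l4 _, l5 _, rfl⟩
  · intro B hB B' hB'
    obtain ⟨t, ht, rfl⟩ := Finset.mem_image.1 hB
    obtain ⟨t', ht', rfl⟩ := Finset.mem_image.1 hB'
    rcases lt_trichotomy t.1 t'.1 with h | h | h
    · exact Or.inr (Or.inl (sep t ht t' ht' h))
    · exact Or.inl (by rw [p.fn t ht t' ht' h])
    · exact Or.inr (Or.inr (sep t' ht' t ht h))
  · intro z hz B hB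
    obtain ⟨t, ht, rfl⟩ := Finset.mem_image.1 hB
    obtain ⟨h0, t', ht', e⟩ := p.b0 z hz
    rcases lt_trichotomy t.1 z.1 with h | h | h
    · left
      rw [← e] at h ⊢
      exact (sep t ht t' ht' h).1.le.trans (l4 _)
    · left
      exact ((l7 _ (h ▸ h0)).trans h).le
    · right
      have g1 := hG _ (Or.inr ⟨(z, t), ⟨⟨hz, ht⟩, h⟩, rfl⟩)
      have := l3 t.1
      simp only at g1 ⊢
      linarith
  · intro B hB
    obtain ⟨t, ht, rfl⟩ := Finset.mem_image.1 hB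
    exact ⟨l1 _, l2 _, trivial⟩

theorem countable_finsets {α : Type} {M : Set α} (hM : M.Countable) :
    {c : Finset α | ∀ z ∈ c, z ∈ M}.Countable := by
  refine ((Set.countable_ofPred_finite_subset hM).preimage
    (f := fun c : Finset α => (c : Set α)) Finset.coe_injective).mono fun c hc => ?_
  exact ⟨c.finite_toSet, fun z hz => hc z hz⟩

theorem exists_colour (h0 : K0.Countable) :
    ∃ c : Cd K K0 → ℕ, ∀ p q, c p = c q → ∃ z, z ≤ p ∧ z ≤ q := by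
  have hD : (K0 ∪ Set.range ((↑) : ℚ → ℝ)).Countable := h0.union (Set.countable_range _)
  obtain ⟨g, hg⟩ := Set.countable_iff_exists_injOn.1
    ((countable_finsets (hD.prod (hD.prod (Set.countable_univ (α := ℚ))))).prod
      (countable_finsets (h0.prod (Set.countable_univ (α := ℚ)))))
  choose π h1 h2 using fun p : Cd K K0 => exists_fit p
  exact ⟨fun p => g (π p), fun p q h => (h1 p).compat (by rw [hg (h2 p) (h2 q) h]; exact h1 q)⟩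

theorem exists_K0 (K : Set ℝ) : ∃ K0 : Set ℝ, K0.Countable ∧ K0 ⊆ K ∧ K ⊆ closure K0 ∧
    ∀ x ∈ K, (∃ b, x < b ∧ ∀ k ∈ K, x < k → b ≤ k) → x ∈ K0 := by
  obtain ⟨t, h1, h2, h3⟩ :=
    (TopologicalSpace.IsSeparable.of_separableSpace K).exists_countable_dense_subset
  refine ⟨t ∪ {x | x ∈ K ∧ ∃ b, x < b ∧ ∀ k ∈ K, x < k → b ≤ k}, h2.union ?_,
    Set.union_subset h1 fun _ h => h.1, h3.trans (closure_mono Set.subset_union_left),
    fun x hx h => Or.inr ⟨hx, h⟩⟩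
  have : ∀ x : ℝ, ∃ ρ : ℚ, (x ∈ K ∧ ∃ b, x < b ∧ ∀ k ∈ K, x < k → b ≤ k) →
      x < ρ ∧ ∀ k ∈ K, x < k → (ρ : ℝ) < k := by
    intro x
    by_cases h : x ∈ K ∧ ∃ b, x < b ∧ ∀ k ∈ K, x < k → b ≤ k
    · obtain ⟨b, hb, H⟩ := h.2
      obtain ⟨ρ, r1, r2⟩ := exists_rat_btwn hb
      exact ⟨ρ, fun _ => ⟨r1, fun k hk h' => r2.trans_le (H k hk h')⟩⟩
    · exact ⟨0, fun h' => absurd h' h⟩
  choose ρ hρ using this
  refine Set.countable_of_injective_of_countable_image (f := ρ) ?_ (Set.to_countable _)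
  intro x hx y hy e
  rcases lt_trichotomy x y with h | h | h
  · have a := (hρ x hx).2 y hy.1 h
    have b := (hρ y hy).1
    rw [e] at a
    exact absurd a (not_lt.2 b.le)
  · exact h
  · have a := (hρ y hy).2 x hx.1 h
    have b := (hρ x hx).1
    rw [← e] at a
    exact absurd a (not_lt.2 b.le)

/-- Martin's axiom for `σ`-linked partial orders -/
def MAL : Prop :=
  ∀ (X : Type) [PartialOrder X] (c : X → ℕ) (D : Om → Set X),
    Nonempty X ∧ (∀ x y, c x = c y → ∃ z, z ≤ x ∧ z ≤ y) ∧ (∀ k x, ∃ y, y ∈ D k ∧ y ≤ x) →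
      ∃ G : Set X, Generic D G

theorem MA.mal (h : MA) : MAL := by
  intro X _ c D ⟨h1, h2, h3⟩
  refine h X h1 (fun A hA => ?_) D h3
  refine Set.countable_of_injective_of_countable_image (f := c) ?_ (Set.to_countable _)
  intro a ha b hb e
  by_contra hne
  exact hA a ha b hb hne (h2 a b e)

theorem MALinked.mal (h : MALinked) : MAL := fun X _ c D H => h X c D H

theorem stronglySurjective (hMA : MAL) (L : Set ℝ) (e : Om → ℝ) (he : L ⊆ Set.range e)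
    (hL : ∀ x ∈ L, ∀ r : ℚ, x + r ∈ L) : StronglySurjective L := by
  intro K hKL hne
  obtain ⟨K0, k1, k2, k3, k4⟩ := exists_K0 K
  obtain ⟨c, hc⟩ := exists_colour (K := K) k1
  obtain ⟨G, -, -, hG, hD⟩ := hMA (Cd K K0) c
    (fun k => {p | (e k ∈ K → ∃ r, (e k, r) ∈ p.s) ∧ Done (e k) p}) ⟨inferInstance, hc, by
      intro k p
      obtain ⟨q, hq, h1⟩ := p.done hne k2 k3 k4 (e k)
      by_cases hk : e k ∈ K
      · obtain ⟨q', hq', h2⟩ := q.dom hk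
        exact ⟨q', ⟨fun _ => h2, h1.mono hq'⟩, hq'.trans hq⟩
      · exact ⟨q, ⟨fun h => absurd h hk, h1⟩, hq⟩⟩
  have h1 : ∀ x : K, ∃ r : ℚ, ∃ p ∈ G, (x.1, r) ∈ p.s := by
    intro x
    obtain ⟨k, hk⟩ := he (hKL x.2)
    obtain ⟨p, hp, h, -⟩ := hD k
    rw [hk] at h
    obtain ⟨r, hr⟩ := h x.2
    exact ⟨r, p, hp, hr⟩
  choose r hr using h1
  have h2 : ∀ p ∈ G, ∀ x : K, ∃ q : Cd K K0, q ≤ p ∧ (x.1, r x) ∈ q.s ∧ q ∈ G := by
    intro p hp x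
    obtain ⟨p', hp', h⟩ := hr x
    obtain ⟨q, hq, a, b⟩ := hG p p' ⟨hp, hp'⟩
    exact ⟨q, a, b.1 h, hq⟩
  have h3 : ∀ p ∈ G, ∀ t (ht : t ∈ p.s), r ⟨t.1, p.mem t ht⟩ = t.2 := by
    intro p hp t ht
    obtain ⟨q, a, b, -⟩ := h2 p hp ⟨t.1, p.mem t ht⟩
    exact congrArg Prod.snd (q.fn _ b t (a.1 ht) rfl)
  have h4 : ∀ x x' : K, x < x' → x.1 + r x < x'.1 + r x' := by
    intro x x' h
    obtain ⟨p, hp, a⟩ := hr x
    obtain ⟨q, b, c, -⟩ := h2 p hp x'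
    exact q.mono _ (b.1 a) _ c h
  have h5 : ∀ y : L, ∃ x : K, (x.1 + r x ≤ y.1 ∨ ∀ k : K, x ≤ k) ∧
      ∀ x' : K, x < x' → y.1 < x'.1 + r x' := by
    intro y
    obtain ⟨k, hk⟩ := he y.2
    obtain ⟨p, hp, -, h⟩ := hD k
    rw [hk] at h
    rcases h with ⟨t, ht, h⟩ | ⟨t, ht, h, ρ, a1, a2⟩ | ⟨t, ht, h, a⟩
    · refine ⟨⟨t.1, p.mem t ht⟩, Or.inl (by rw [h3 p hp t ht]; exact h.le), fun x' hx' => ?_⟩
      have := h4 _ _ hx'
      rw [h3 p hp t ht] at this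
      exact h ▸ this
    · refine ⟨⟨t.1, p.mem t ht⟩, Or.inl (by rw [h3 p hp t ht]; exact h), fun x' hx' => ?_⟩
      obtain ⟨q, b, c, -⟩ := h2 p hp x'
      exact a2.trans (q.blk _ (b.2 a1) _ c hx')
    · refine ⟨⟨t.1, p.mem t ht⟩, Or.inr fun k => a k.1 k.2, fun x' hx' => ?_⟩
      have := h4 _ _ hx'
      rw [h3 p hp t ht] at this
      exact h.trans this
  choose f hf1 hf2 using h5
  refine ⟨f, fun x => ⟨⟨x.1 + r x, hL _ (hKL x.2) _⟩, ?_⟩, fun y y' h => ?_⟩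
  · rcases lt_trichotomy (f ⟨x.1 + r x, hL _ (hKL x.2) _⟩) x with h | h | h
    · exact absurd (hf2 _ x h) (lt_irrefl _)
    · exact h
    · rcases hf1 ⟨x.1 + r x, hL _ (hKL x.2) _⟩ with h' | h'
      · exact absurd (h4 _ _ h) (not_lt.2 h')
      · exact absurd (h' x) (not_le.2 h)
  · by_contra hc
    have hlt : f y' < f y := not_le.1 hc
    have a := hf2 y' _ hlt
    rcases hf1 y with h' | h'
    · have : y.1 ≤ y'.1 := h
      linarith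
    · exact absurd (h' _) hc

theorem exists_enum : ∃ g : Om → Om × ℚ, Function.Surjective g := by
  have h : Cardinal.mk (Om × ℚ) = Cardinal.mk Om := by
    have h4 : Cardinal.mk Om = Cardinal.aleph 1 := by simp
    rw [Cardinal.mk_prod, Cardinal.lift_id, Cardinal.lift_id, Cardinal.mkRat, h4]
    exact Cardinal.mul_eq_left (Cardinal.aleph0_le_aleph 1) (Cardinal.aleph0_le_aleph 1)
      Cardinal.aleph0_ne_zero
  obtain ⟨f⟩ := Cardinal.eq.1 h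
  exact ⟨f.symm, f.symm.surjective⟩

/-- the rational translates of the values of `e` -/
def Tr (e : Om → ℝ) : Set ℝ := {y | ∃ a, ∃ r : ℚ, y = e a + r}

theorem tr_surj (hMA : MAL) (e : Om → ℝ) : StronglySurjective (Tr e) := by
  obtain ⟨g, hg⟩ := exists_enum
  refine stronglySurjective hMA _ (fun a => e (g a).1 + (g a).2) ?_ ?_
  · rintro _ ⟨a, r, rfl⟩
    obtain ⟨b, hb⟩ := hg (a, r)
    exact ⟨b, by simp [hb]⟩
  · rintro _ ⟨a, r, rfl⟩ s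
    exact ⟨a, r + s, by push_cast; ring⟩

theorem om_uncountable : ¬ (Set.univ : Set Om).Countable := by
  intro h
  have h4 : Cardinal.mk Om = Cardinal.aleph 1 := by simp
  have : Countable Om := Set.countable_univ_iff.1 h
  have h5 := Cardinal.mk_le_aleph0_iff.2 this
  rw [h4] at h5
  exact absurd h5 (not_le.2 Cardinal.aleph0_lt_aleph_one)

end H31Z.SS
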